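import Pool.Agent.N415.ITM.Suf

/-! MP_d0d08e_co, Q1: the graphs `H` for which the graphs without `H` as an induced topological minor
have bounded clique-width are the induced subgraphs of `P4`, of the paw and of the diamond. -/

namespace Pool.Agent.Results.MP_d0d08e_co.Classification

open Pool.Agent.N415.ITM Pool.Agent.H175R2

theorem result {W : Type} [Finite W] (H : SimpleGraph W) :
    (∃ c : ℕ, ∀ (V : Type) [Finite V] (G : SimpleGraph V), ¬ IsInducedTopMinor H G →
      cliqueWidth G ≤ c) ↔
    (H.IsIndContained P4 ∨ H.IsIndContained paw ∨ H.IsIndContained diamond) :=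
  classification H

end Pool.Agent.Results.MP_d0d08e_co.Classification
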